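import Mathlib

set_option autoImplicit false

open MeasureTheory Set
open scoped Pointwise RealInnerProductSpace ENNReal

namespace Pool.Agent.MP_3a8a48_gt

variable {E : Type*} [NormedAddCommGroup E] [InnerProductSpace ℝ E] [FiniteDimensional ℝ E]
  [MeasurableSpace E] [BorelSpace E]

/-- The parameters at which the line through `y` in direction `v` meets `U`. -/
def fib (v : E) (U : Set E) (y : E) : Set ℝ := {t : ℝ | y + t • v ∈ U}

/-- A slab of unit thickness (measured along `v`). -/
def slab (v : E) : Set E := {y | ⟪y, v⟫ ∈ Ico (0 : ℝ) (‖v‖ ^ 2)}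

omit [FiniteDimensional ℝ E] in
lemma measurableSet_slab (v : E) : MeasurableSet (slab v) := by
  have : Continuous fun y : E => ⟪y, v⟫ := by fun_prop
  exact this.measurable measurableSet_Ico

omit [FiniteDimensional ℝ E] in
lemma measurable_fib (v : E) {U : Set E} (hU : MeasurableSet U) :
    Measurable fun y => volume (fib v U y) := by
  have hc : Continuous fun p : E × ℝ => p.1 + p.2 • v := by fun_prop
  have hm : MeasurableSet ((fun p : E × ℝ => p.1 + p.2 • v) ⁻¹' U) := hc.measurable hU
  exact measurable_measure_prodMk_left (ν := (volume : Measure ℝ)) hm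

omit [FiniteDimensional ℝ E] [MeasurableSpace E] [BorelSpace E] in
lemma volume_slab_line {v : E} (hv : v ≠ 0) (x : E) :
    volume {t : ℝ | x - t • v ∈ slab v} = 1 := by
  have hn : 0 < ‖v‖ ^ 2 := by positivity
  have : {t : ℝ | x - t • v ∈ slab v} = Ioc (⟪x, v⟫ / ‖v‖ ^ 2 - 1) (⟪x, v⟫ / ‖v‖ ^ 2) := by
    ext t
    simp only [slab, mem_ofPred_eq, mem_Ico, mem_Ioc, inner_sub_left, inner_smul_left,
      real_inner_self_eq_norm_sq, conj_trivial]
    rw [le_div_iff₀ hn, sub_lt_iff_lt_add (a := _ / _), div_lt_iff₀ hn]
    constructor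
    · rintro ⟨h1, h2⟩
      constructor <;> linarith
    · rintro ⟨h1, h2⟩
      constructor <;> linarith
  rw [this, Real.volume_Ioc]
  simp

lemma volume_eq_lintegral_fib {v : E} (hv : v ≠ 0) {U : Set E} (hU : MeasurableSet U) :
    volume U = ∫⁻ y in slab v, volume (fib v U y) := by
  have hS := measurableSet_slab v
  let F : E → ℝ → ℝ≥0∞ := fun x t => U.indicator 1 x * (slab v).indicator 1 (x - t • v)
  let G : E → ℝ → ℝ≥0∞ := fun y t => U.indicator 1 (y + t • v) * (slab v).indicator 1 y
  have hFm : Measurable (Function.uncurry F) := by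
    have h1 : Measurable fun p : E × ℝ => U.indicator (1 : E → ℝ≥0∞) p.1 :=
      (measurable_one.indicator hU).comp measurable_fst
    have hc : Continuous fun p : E × ℝ => p.1 - p.2 • v := by fun_prop
    have h2 : Measurable fun p : E × ℝ => (slab v).indicator (1 : E → ℝ≥0∞) (p.1 - p.2 • v) :=
      (measurable_one.indicator hS).comp hc.measurable
    exact h1.mul h2
  have hGm : Measurable (Function.uncurry G) := by
    have hc : Continuous fun p : E × ℝ => p.1 + p.2 • v := by fun_prop
    have h1 : Measurable fun p : E × ℝ => U.indicator (1 : E → ℝ≥0∞) (p.1 + p.2 • v) :=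
      (measurable_one.indicator hU).comp hc.measurable
    have h2 : Measurable fun p : E × ℝ => (slab v).indicator (1 : E → ℝ≥0∞) p.1 :=
      (measurable_one.indicator hS).comp measurable_fst
    exact h1.mul h2
  have h1 : ∀ x, ∫⁻ t, F x t = U.indicator 1 x := by
    intro x
    have hc : Continuous fun t : ℝ => x - t • v := by fun_prop
    have hm : MeasurableSet {t : ℝ | x - t • v ∈ slab v} := hc.measurable hS
    have : (fun t => F x t) = fun t => U.indicator 1 x *
        ({t : ℝ | x - t • v ∈ slab v}).indicator 1 t := by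
      ext t
      rfl
    rw [this, lintegral_const_mul _ (measurable_one.indicator hm), lintegral_indicator_one hm,
      volume_slab_line hv, mul_one]
  have h2 : ∀ y, ∫⁻ t, G y t = (slab v).indicator (fun y => volume (fib v U y)) y := by
    intro y
    have hc : Continuous fun t : ℝ => y + t • v := by fun_prop
    have hm : MeasurableSet (fib v U y) := hc.measurable hU
    have : (fun t => G y t) = fun t => (fib v U y).indicator 1 t * (slab v).indicator 1 y := by
      ext t
      rfl
    rw [this, lintegral_mul_const _ (measurable_one.indicator hm), lintegral_indicator_one hm]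
    by_cases hy : y ∈ slab v <;> simp [hy]
  have h3 : ∀ t, ∫⁻ x, F x t = ∫⁻ y, G y t := by
    intro t
    rw [← lintegral_add_right_eq_self (fun x => F x t) (t • v)]
    simp only [F, G, add_sub_cancel_right]
  calc volume U = ∫⁻ x, U.indicator 1 x := (lintegral_indicator_one hU).symm
    _ = ∫⁻ x, ∫⁻ t, F x t := by simp only [h1]
    _ = ∫⁻ t, ∫⁻ x, F x t := lintegral_lintegral_swap hFm.aemeasurable
    _ = ∫⁻ t, ∫⁻ y, G y t := by simp only [h3]
    _ = ∫⁻ y, ∫⁻ t, G y t := (lintegral_lintegral_swap hGm.aemeasurable).symm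
    _ = ∫⁻ y, (slab v).indicator (fun y => volume (fib v U y)) y := by simp only [h2]
    _ = ∫⁻ y in slab v, volume (fib v U y) := lintegral_indicator hS _

/-- Compact convex sets. -/
structure CC (K : Set E) : Prop where
  compact : IsCompact K
  convex : Convex ℝ K

omit [FiniteDimensional ℝ E] [MeasurableSpace E] [BorelSpace E] in
lemma fib_eq_Icc {v : E} (hv : v ≠ 0) {K : Set E} (hK : CC K) (y : E)
    (hne : (fib v K y).Nonempty) : ∃ a b : ℝ, a ≤ b ∧ fib v K y = Icc a b := by
  have hconv : Convex ℝ (fib v K y) := by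
    intro s hs t ht a b ha hb hab
    have := hK.convex hs ht ha hb hab
    simp only [fib, mem_ofPred_eq, smul_eq_mul]
    convert this using 1
    rw [smul_add, smul_add, add_add_add_comm, ← add_smul, hab, one_smul, add_smul, mul_smul,
      mul_smul]
  have hcomp : IsCompact (fib v K y) := by
    have h1 : Topology.IsClosedEmbedding fun t : ℝ => t • v := isClosedEmbedding_smul_left hv
    have h2 : Topology.IsClosedEmbedding fun x : E => y + x :=
      (Homeomorph.addLeft y).isClosedEmbedding
    exact (h2.comp h1).isCompact_preimage hK.compact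
  have hconn : IsConnected (fib v K y) := ⟨hne, hconv.isPreconnected⟩
  have h := eq_Icc_of_connected_compact hconn hcomp
  refine ⟨_, _, ?_, h⟩
  rw [h] at hne
  exact nonempty_Icc.1 hne

end Pool.Agent.MP_3a8a48_gt
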