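import Pool.Agent.MP_3a8a48_gt.Volume

set_option autoImplicit false

open MeasureTheory Set Filter Topology
open scoped Pointwise RealInnerProductSpace ENNReal

namespace Pool.Agent.MP_3a8a48_gt

section basic

variable {E : Type*} [NormedAddCommGroup E] [InnerProductSpace ℝ E]

/-- Functionals on compact convex sets that behave like a projection volume of degree `d`. -/
structure Good (d : ℤ) (f : Set E → ℝ) : Prop where
  nonneg : ∀ K, CC K → 0 ≤ f K
  hom : ∀ K, CC K → ∀ s : ℝ, 0 < s → f (s • K) = s ^ d * f K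
  aff : ∀ K, CC K → ∀ (v : E) (t : ℝ), 0 ≤ t →
    f (K + seg (t • v)) = f K + t * (f (K + seg v) - f K)
  shadow : ∀ (e : E) (θ : ℝ), 0 ≤ θ → θ ≤ 1 → ∀ U X Y, CC U → CC X → CC Y → Shadow e θ U X Y →
    f U ≤ θ * f X + (1 - θ) * f Y

lemma Good.mono {d : ℤ} {f : Set E → ℝ} (hf : Good d f) {K L : Set E} (hK : CC K) (hL : CC L)
    (h : K ⊆ L) : f K ≤ f L := by
  have := hf.shadow 0 1 zero_le_one le_rfl K L L hK hL hL fun u hu =>
    ⟨0, 0, by simpa using h hu, by simpa using h hu, by simp⟩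
  linarith

lemma good_zero (d : ℤ) : Good d (fun _ : Set E => (0 : ℝ)) :=
  ⟨fun _ _ => le_rfl, fun _ _ _ _ => by simp, fun _ _ _ _ _ => by simp,
    fun _ _ _ _ _ _ _ _ _ _ _ => by simp⟩

lemma Good.add {d : ℤ} {f g : Set E → ℝ} (hf : Good d f) (hg : Good d g) :
    Good d (fun K => f K + g K) := by
  refine ⟨fun K hK => add_nonneg (hf.nonneg K hK) (hg.nonneg K hK), fun K hK s hs => ?_,
    fun K hK v t ht => ?_, fun e θ h0 h1 U X Y hU hX hY h => ?_⟩
  · rw [hf.hom K hK s hs, hg.hom K hK s hs]; ring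
  · rw [hf.aff K hK v t ht, hg.aff K hK v t ht]; ring
  · have := hf.shadow e θ h0 h1 U X Y hU hX hY h
    have := hg.shadow e θ h0 h1 U X Y hU hX hY h
    linarith

lemma slope_le {a b c d : ℝ} (h : ∀ T : ℝ, 0 ≤ T → a + T * b ≤ c + T * d) : b ≤ d := by
  by_contra hlt
  push Not at hlt
  have hp : 0 < b - d := by linarith
  have := h ((|c - a| + 1) / (b - d)) (by positivity)
  have h2 : (|c - a| + 1) / (b - d) * (b - d) = |c - a| + 1 := div_mul_cancel₀ _ hp.ne'
  have h3 := le_abs_self (c - a)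
  nlinarith

/-- The difference operator along a segment. -/
def delta (v : E) (f : Set E → ℝ) : Set E → ℝ := fun K => f (K + seg v) - f K

lemma Good.delta {d : ℤ} {f : Set E → ℝ} (hf : Good d f) (v : E) :
    Good (d - 1) (delta v f) := by
  refine ⟨fun K hK => ?_, fun K hK s hs => ?_, fun K hK w t ht => ?_,
    fun e θ h0 h1 U X Y hU hX hY h => ?_⟩
  · exact sub_nonneg.2 (hf.mono hK (hK.add (cc_seg v)) (subset_add_seg K v))
  · have h1 : s • K + seg v = s • (K + seg (s⁻¹ • v)) := by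
      rw [smul_add, smul_seg, smul_smul, mul_inv_cancel₀ hs.ne', one_smul]
    simp only [MP_3a8a48_gt.delta]
    rw [h1, hf.hom _ (hK.add (cc_seg _)) s hs, hf.hom _ hK s hs,
      hf.aff K hK v _ (inv_nonneg.2 hs.le), zpow_sub_one₀ hs.ne']
    ring
  · simp only [MP_3a8a48_gt.delta]
    rw [add_right_comm K (seg (t • w)), add_right_comm K (seg w),
      hf.aff _ (hK.add (cc_seg v)) w t ht, hf.aff _ hK w t ht]
    ring
  · refine slope_le (a := f U) (c := θ * f X + (1 - θ) * f Y) fun T hT => ?_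
    have := hf.shadow e θ h0 h1 _ _ _ (hU.add (cc_seg (T • v))) (hX.add (cc_seg (T • v)))
      (hY.add (cc_seg (T • v))) (h.add _)
    rw [hf.aff _ hU v T hT, hf.aff _ hX v T hT, hf.aff _ hY v T hT] at this
    simp only [MP_3a8a48_gt.delta]
    linarith

lemma cc_closedBall [ProperSpace E] (r : ℝ) : CC (Metric.closedBall (0 : E) r) :=
  ⟨isCompact_closedBall 0 r, convex_closedBall 0 r⟩

lemma Good.eq_zero [ProperSpace E] {f : Set E → ℝ} (hf : Good (-1) f) {K : Set E} (hK : CC K) :
    f K = 0 := by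
  refine le_antisymm ?_ (hf.nonneg K hK)
  obtain ⟨R, hR⟩ := hK.compact.isBounded.subset_closedBall (0 : E)
  have hB := cc_closedBall (E := E) 1
  have key : ∀ s : ℝ, max R 1 ≤ s → f K ≤ s⁻¹ * f (Metric.closedBall 0 1) := by
    intro s hs
    have hs0 : 0 < s := lt_of_lt_of_le one_pos ((le_max_right _ _).trans hs)
    have h1 : K ⊆ s • Metric.closedBall (0 : E) 1 := by
      rw [smul_unitClosedBall, Real.norm_of_nonneg hs0.le]
      exact hR.trans (Metric.closedBall_subset_closedBall ((le_max_left _ _).trans hs))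
    have := hf.mono hK (hB.smul s) h1
    rwa [hf.hom _ hB s hs0, zpow_neg_one] at this
  have hlim : Tendsto (fun s : ℝ => s⁻¹ * f (Metric.closedBall 0 1)) atTop (𝓝 0) := by
    simpa using tendsto_inv_atTop_zero.mul_const (f (Metric.closedBall (0 : E) 1))
  exact ge_of_tendsto hlim ((eventually_ge_atTop (max R 1)).mono key)

/-- Shrinks the components in the directions `b i`, `i ∈ S`, by the factor `1 - ε`. -/
noncomputable def shrink {ι : Type*} (b : ι → E) (S : Finset ι) (ε : ℝ) : E →L[ℝ] E :=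
  ContinuousLinearMap.id ℝ E - ε • ∑ i ∈ S, (innerSL ℝ (b i)).smulRight (b i)

lemma shrink_apply {ι : Type*} (b : ι → E) (S : Finset ι) (ε : ℝ) (x : E) :
    shrink b S ε x = x - ε • ∑ i ∈ S, ⟪b i, x⟫ • b i := by
  simp [shrink]

/-- Orthogonal projection onto the hyperplane orthogonal to the unit vector `e`. -/
noncomputable def proj (e : E) : E →L[ℝ] E :=
  ContinuousLinearMap.id ℝ E - (innerSL ℝ e).smulRight e

lemma proj_apply (e x : E) : proj e x = x - ⟪e, x⟫ • e := by
  simp [proj]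

lemma shadow_shrink {ι : Type*} [DecidableEq ι] {b : ι → E} (hb : Orthonormal ℝ b)
    {S : Finset ι} {j : ι} (hj : j ∉ S) (ε : ℝ) (K : Set E) :
    Shadow (b j) (1 - ε) (shrink b (insert j S) ε '' K) (shrink b S ε '' K)
      (shrink b S ε '' (proj (b j) '' K)) := by
  rintro _ ⟨x, hx, rfl⟩
  refine ⟨ε * ⟪b j, x⟫, -((1 - ε) * ⟪b j, x⟫), ⟨x, hx, ?_⟩, ⟨_, ⟨x, hx, rfl⟩, ?_⟩, by ring⟩
  · rw [shrink_apply, shrink_apply, Finset.sum_insert hj, smul_add, mul_smul]
    abel
  · have h : ∑ i ∈ S, ⟪b i, proj (b j) x⟫ • b i = ∑ i ∈ S, ⟪b i, x⟫ • b i := by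
      refine Finset.sum_congr rfl fun i hi => ?_
      have hij : i ≠ j := fun h => hj (h ▸ hi)
      rw [proj_apply, inner_sub_right, inner_smul_right, hb.2 hij, mul_zero, sub_zero]
    rw [shrink_apply, shrink_apply, Finset.sum_insert hj, h, proj_apply]
    module

lemma shrink_arith {s A A' C C' k p ε x y z : ℝ} (hs : 0 ≤ s) (hA : 0 ≤ A) (hC : 0 ≤ C)
    (hC' : 0 ≤ C') (hp : 0 ≤ p) (h0 : 0 ≤ ε) (hε : ε ≤ 1)
    (h3 : x ≤ (1 - ε) * y + (1 - (1 - ε)) * z)
    (h4 : y ≤ (1 - s * ε) * k + ε * A + C * ε ^ 2)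
    (h5 : z ≤ (1 - s * ε) * p + ε * A' + C' * ε ^ 2) :
    x ≤ (1 - (s + 1) * ε) * k + ε * (p + A) + (s * k + C + A' + C') * ε ^ 2 := by
  have h6 := mul_le_mul_of_nonneg_left h4 (show 0 ≤ 1 - ε by linarith)
  have h7 := mul_le_mul_of_nonneg_left h5 h0
  have e1 : 0 ≤ ε * ε * A := by positivity
  have e2 : 0 ≤ C * ε ^ 3 := by positivity
  have e3 : 0 ≤ s * ε ^ 2 * p := by positivity
  have e4 : 0 ≤ C' * ε ^ 2 * (1 - ε) := mul_nonneg (by positivity) (by linarith)
  linarith

lemma Good.shrink_le {d : ℤ} {f : Set E → ℝ} (hf : Good d f) {ι : Type*} [DecidableEq ι]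
    {b : ι → E} (hb : Orthonormal ℝ b) (S : Finset ι) :
    ∀ K, CC K → ∃ C : ℝ, 0 ≤ C ∧ ∀ ε : ℝ, 0 ≤ ε → ε ≤ 1 →
      f (shrink b S ε '' K) ≤ (1 - S.card * ε) * f K + ε * ∑ i ∈ S, f (proj (b i) '' K)
        + C * ε ^ 2 := by
  induction S using Finset.induction_on with
  | empty =>
    intro K hK
    refine ⟨0, le_rfl, fun ε _ _ => ?_⟩
    have : shrink b ∅ ε '' K = K := by
      ext x; simp [shrink_apply]
    simp [this]
  | insert j S hj ih =>
    intro K hK
    have hP := hK.image (proj (b j))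
    obtain ⟨C, hC, h1⟩ := ih K hK
    obtain ⟨C', hC', h2⟩ := ih _ hP
    have hA : 0 ≤ ∑ i ∈ S, f (proj (b i) '' K) :=
      Finset.sum_nonneg fun i _ => hf.nonneg _ (hK.image _)
    have hA' : 0 ≤ ∑ i ∈ S, f (proj (b i) '' (proj (b j) '' K)) :=
      Finset.sum_nonneg fun i _ => hf.nonneg _ (hP.image _)
    have hfK := hf.nonneg K hK
    have hfP := hf.nonneg _ hP
    have hS : (0 : ℝ) ≤ S.card := Nat.cast_nonneg _
    refine ⟨S.card * f K + C + ∑ i ∈ S, f (proj (b i) '' (proj (b j) '' K)) + C',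
      by positivity, fun ε h0 hε => ?_⟩
    have h3 := hf.shadow (b j) (1 - ε) (by linarith) (by linarith) _ _ _ (hK.image _)
      (hK.image _) (hP.image _) (shadow_shrink hb hj ε K)
    have h4 := h1 ε h0 hε
    have h5 := h2 ε h0 hε
    rw [Finset.sum_insert hj, Finset.card_insert_of_notMem hj]
    push_cast
    exact shrink_arith hS hA hC hC' hfP h0 hε h3 h4 h5

lemma Good.main {ι : Type*} [Fintype ι] [DecidableEq ι] (b : OrthonormalBasis ι ℝ E) {n : ℕ}
    {f : Set E → ℝ} (hf : Good n f) {K : Set E} (hK : CC K) :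
    ((Fintype.card ι : ℝ) - n) * f K ≤ ∑ i, f (proj (b i) '' K) := by
  obtain ⟨C, hC, h⟩ := hf.shrink_le b.orthonormal Finset.univ K hK
  have hfK := hf.nonneg K hK
  have key : ∀ ε : ℝ, 0 < ε → ε < 1 →
      ((Fintype.card ι : ℝ) - n) * f K ≤ ∑ i, f (proj (b i) '' K) + C * ε := by
    intro ε h0 h1
    have h2 := h ε h0.le h1.le
    have h3 : shrink b Finset.univ ε '' K = (1 - ε) • K := by
      rw [← image_smul]
      refine image_congr fun x _ => ?_
      rw [shrink_apply, b.sum_repr', sub_smul, one_smul]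
    rw [h3, hf.hom K hK _ (by linarith), zpow_natCast, Finset.card_univ] at h2
    have h4 : 1 + (n : ℝ) * (-ε) ≤ (1 + -ε) ^ n := one_add_mul_le_pow (by linarith) n
    rw [← sub_eq_add_neg] at h4
    have h5 := mul_le_mul_of_nonneg_right h4 hfK
    refine le_of_mul_le_mul_left ?_ h0
    nlinarith
  have hlim : Tendsto (fun ε : ℝ => ∑ i, f (proj (b i) '' K) + C * ε) (𝓝[>] 0)
      (𝓝 (∑ i, f (proj (b i) '' K))) := by
    have : Continuous fun ε : ℝ => ∑ i, f (proj (b i) '' K) + C * ε := by fun_prop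
    have h2 := this.tendsto 0
    simp only [mul_zero, add_zero] at h2
    exact h2.mono_left nhdsWithin_le_nhds
  refine ge_of_tendsto hlim ?_
  filter_upwards [Ioo_mem_nhdsGT (zero_lt_one' ℝ)] with ε hε using key ε hε.1 hε.2

lemma cc_sum_seg {ι : Type*} (s : Finset ι) (w : ι → E) : CC (∑ i ∈ s, seg (w i)) := by
  classical
  induction s using Finset.induction_on with
  | empty => simpa using cc_zero
  | insert j S hj ih =>
    rw [Finset.sum_insert hj]
    exact (cc_seg _).add ih

end basic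

variable {E : Type*} [NormedAddCommGroup E] [InnerProductSpace ℝ E] [FiniteDimensional ℝ E]
  [MeasurableSpace E] [BorelSpace E]

lemma good_vol : Good (Module.finrank ℝ E : ℤ) (vol : Set E → ℝ) :=
  ⟨fun _ _ => ENNReal.toReal_nonneg, fun K _ s hs => by rw [vol_smul K hs.le, zpow_natCast],
    fun _ hK v _ ht => vol_add_seg hK v ht,
    fun e _ h0 h1 _ _ _ hU hX hY h => vol_shadow e h0 h1 hU hX hY h⟩

lemma zonotope_expansion {ι : Type*} (s : Finset ι) (w : ι → E) :
    ∃ g : ℕ → Set E → ℝ, (∀ k : ℕ, Good ((Module.finrank ℝ E : ℤ) - k) (g k)) ∧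
      ∀ K, CC K → ∀ t : ℝ, 0 ≤ t → vol (K + t • ∑ i ∈ s, seg (w i)) =
        ∑ k ∈ Finset.range (Module.finrank ℝ E + 1), g k K * t ^ k := by
  classical
  induction s using Finset.induction_on with
  | empty =>
    refine ⟨fun k => Nat.casesOn k vol fun _ _ => 0, fun k => ?_, fun K hK t ht => ?_⟩
    · cases k with
      | zero => simpa using good_vol
      | succ k => exact good_zero _
    · rw [Finset.sum_range_succ']
      simp
  | insert j S hj ih =>
    obtain ⟨g, hg, h⟩ := ih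
    refine ⟨fun k => Nat.casesOn k (g 0) fun k K => g (k + 1) K + delta (w j) (g k) K,
      fun k => ?_, fun K hK t ht => ?_⟩
    · cases k with
      | zero => exact hg 0
      | succ k =>
        have h2 := (hg k).delta (w j)
        have : (Module.finrank ℝ E : ℤ) - k - 1 = (Module.finrank ℝ E : ℤ) - (k + 1 : ℕ) := by
          push_cast; ring
        rw [this] at h2
        exact (hg (k + 1)).add h2
    · rw [Finset.sum_insert hj, smul_add, smul_seg, ← add_assoc, h _ (hK.add (cc_seg _)) t ht]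
      have h1 : ∀ k, g k (K + seg (t • w j)) * t ^ k =
          g k K * t ^ k + delta (w j) (g k) K * t ^ (k + 1) := by
        intro k
        rw [(hg k).aff K hK _ t ht]
        simp only [delta]
        ring
      have h2 : delta (w j) (g (Module.finrank ℝ E)) K = 0 := by
        have := (hg (Module.finrank ℝ E)).delta (w j)
        rw [sub_self, zero_sub] at this
        exact this.eq_zero hK
      simp only [h1]
      rw [Finset.sum_add_distrib, Finset.sum_range_succ (fun k => delta (w j) (g k) K * _), h2,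
        Finset.sum_range_succ', Finset.sum_range_succ']
      simp only [add_mul, Finset.sum_add_distrib]
      simp
      ring

end Pool.Agent.MP_3a8a48_gt
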