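import Pool.Agent.MP_3a8a48_gt.Zonoid

set_option autoImplicit false

open MeasureTheory Set Filter Topology
open scoped Pointwise RealInnerProductSpace ENNReal

namespace Pool.Agent.MP_3a8a48_gt

lemma tendsto_coeff {m : ℕ} (c : ℕ → ℕ → ℝ) (c' : ℕ → ℝ)
    (h : ∀ t : ℝ, 0 ≤ t → Tendsto (fun N => ∑ k ∈ Finset.range (m + 1), c N k * t ^ k) atTop
      (𝓝 (∑ k ∈ Finset.range (m + 1), c' k * t ^ k))) {k : ℕ} (hk : k ≤ m) :
    Tendsto (fun N => c N k) atTop (𝓝 (c' k)) := by
  let A : Matrix (Fin (m + 1)) (Fin (m + 1)) ℝ := Matrix.vandermonde fun i => ((i : ℕ) : ℝ)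
  let L : (Fin (m + 1) → ℝ) →ₗ[ℝ] (Fin (m + 1) → ℝ) := A.mulVecLin
  have hL : ∀ (x : ℕ → ℝ) (j : Fin (m + 1)), L (fun i => x i) j =
      ∑ k ∈ Finset.range (m + 1), x k * ((j : ℕ) : ℝ) ^ k := by
    intro x j
    rw [Finset.sum_range]
    simp [L, A, Matrix.mulVec, dotProduct, Matrix.vandermonde_apply, mul_comm]
  have hker : LinearMap.ker L = ⊥ := by
    rw [LinearMap.ker_eq_bot']
    intro x hx
    refine Matrix.eq_zero_of_mulVec_eq_zero (M := A) ?_ hx
    refine Matrix.det_vandermonde_ne_zero_iff.2 fun i j hij => ?_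
    exact Fin.ext (by exact_mod_cast hij)
  have hemb := L.isClosedEmbedding_of_injective hker
  have h1 : Tendsto (fun N => fun i : Fin (m + 1) => c N i) atTop
      (𝓝 fun i : Fin (m + 1) => c' i) := by
    rw [hemb.isEmbedding.tendsto_nhds_iff, tendsto_pi_nhds]
    intro j
    simp only [Function.comp_apply, hL]
    exact h _ (Nat.cast_nonneg _)
  exact tendsto_pi_nhds.1 h1 ⟨k, Nat.lt_succ_of_le hk⟩

variable {E : Type*} [NormedAddCommGroup E] [InnerProductSpace ℝ E] [FiniteDimensional ℝ E]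
  [MeasurableSpace E] [BorelSpace E]

lemma vol_mono {K L : Set E} (hL : CC L) (h : K ⊆ L) : vol K ≤ vol L :=
  ENNReal.toReal_mono hL.volume_ne_top (measure_mono h)

lemma tendsto_vol_add {K : Set E} (hK : CC K) {Z : ℕ → Set E} (hZ : ∀ N, CC (Z N))
    (h1 : ∀ N : ℕ, Metric.closedBall 0 (1 - 1 / ((N : ℝ) + 1)) ⊆ Z N)
    (h2 : ∀ N : ℕ, Z N ⊆ Metric.closedBall 0 (1 + 1 / ((N : ℝ) + 1)))
    {p : ℝ → ℝ} (hp : Continuous p) (h : ∀ t, 0 ≤ t → vol (Metric.cthickening t K) = p t)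
    {t : ℝ} (ht : 0 ≤ t) : Tendsto (fun N => vol (K + t • Z N)) atTop (𝓝 (p t)) := by
  have hlim : Tendsto (fun N : ℕ => 1 / ((N : ℝ) + 1)) atTop (𝓝 0) :=
    tendsto_one_div_add_atTop_nhds_zero_nat
  have hball : ∀ r : ℝ, 0 ≤ r → vol (K + t • Metric.closedBall (0 : E) r) = p (t * r) := by
    intro r hr
    rw [smul_closedBall _ _ hr, smul_zero, Real.norm_of_nonneg ht,
      hK.compact.add_closedBall_zero (mul_nonneg ht hr), h _ (mul_nonneg ht hr)]
  have l1 : Tendsto (fun N : ℕ => p (t * (1 - 1 / ((N : ℝ) + 1)))) atTop (𝓝 (p t)) := by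
    have := (hp.tendsto _).comp ((hlim.const_sub 1).const_mul t)
    simpa [Function.comp_def] using this
  have l2 : Tendsto (fun N : ℕ => p (t * (1 + 1 / ((N : ℝ) + 1)))) atTop (𝓝 (p t)) := by
    have := (hp.tendsto _).comp ((hlim.const_add 1).const_mul t)
    simpa [Function.comp_def] using this
  refine tendsto_of_tendsto_of_tendsto_of_le_of_le l1 l2 (fun N => ?_) (fun N => ?_)
  · have h0 : (0 : ℝ) ≤ 1 - 1 / ((N : ℝ) + 1) := by
      rw [sub_nonneg, div_le_one (by positivity)]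
      linarith [Nat.cast_nonneg (α := ℝ) N]
    simp only
    rw [← hball _ h0]
    exact vol_mono (hK.add ((hZ N).smul t)) (add_subset_add_left (smul_set_mono (h1 N)))
  · simp only
    rw [← hball _ (by positivity)]
    exact vol_mono (hK.add ((cc_closedBall _).smul t)) (add_subset_add_left (smul_set_mono (h2 N)))

/-- The inequality for the coefficients of the Steiner polynomials. -/
theorem steiner_coeff_le [Nontrivial E] {ι : Type*} [Fintype ι] [DecidableEq ι]
    (b : OrthonormalBasis ι ℝ E) {m : ℕ} (hm : Module.finrank ℝ E = m) {K : Set E} (hK : CC K)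
    (c : ℕ → ℝ) (c' : ι → ℕ → ℝ)
    (hc : ∀ t, 0 ≤ t → vol (Metric.cthickening t K) = ∑ k ∈ Finset.range (m + 1), c k * t ^ k)
    (hc' : ∀ i t, 0 ≤ t → vol (Metric.cthickening t (proj (b i) '' K)) =
      ∑ k ∈ Finset.range (m + 1), c' i k * t ^ k) {k : ℕ} (hk : k ≤ m) :
    (k : ℝ) * c k ≤ ∑ i, c' i k := by
  have hcard : Fintype.card ι = m := by rw [← hm, Module.finrank_eq_card_basis b.toBasis]
  have hε : ∀ N : ℕ, (0 : ℝ) < 1 / ((N : ℝ) + 1) := fun N => by positivity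
  choose s w h1 h2 using fun N : ℕ => exists_zonotope_near_ball (E := E) (hε N)
  choose g hg hexp using fun N : ℕ => zonotope_expansion (s N) (w N)
  rw [hm] at hg hexp
  have hlim : ∀ (L : Set E) (x : ℕ → ℝ), CC L → (∀ t, 0 ≤ t → vol (Metric.cthickening t L) =
      ∑ k ∈ Finset.range (m + 1), x k * t ^ k) →
      Tendsto (fun N => g N k L) atTop (𝓝 (x k)) := by
    intro L x hL hx
    refine tendsto_coeff (fun N k => g N k L) x (fun t ht => ?_) hk
    have := tendsto_vol_add hL (fun N => cc_sum_seg (s N) (w N)) h1 h2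
      (p := fun t => ∑ k ∈ Finset.range (m + 1), x k * t ^ k) (by fun_prop) hx ht
    simpa only [hexp _ L hL t ht] using this
  have l1 := (hlim K c hK hc).const_mul (k : ℝ)
  have l2 := tendsto_finsetSum (Finset.univ : Finset ι)
    fun i _ => hlim _ (c' i) (hK.image (proj (b i))) (hc' i)
  refine le_of_tendsto_of_tendsto' l1 l2 fun N => ?_
  have h3 := hg N k
  rw [← Nat.cast_sub hk] at h3
  have h4 := h3.main b hK
  rw [hcard, Nat.cast_sub hk, sub_sub_cancel] at h4
  exact h4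

lemma sum_reflect (m : ℕ) (w a : ℕ → ℝ) (t : ℝ) :
    ∑ j ∈ Finset.range (m + 1), w (m - j) * a j * t ^ (m - j) =
      ∑ k ∈ Finset.range (m + 1), w k * a (m - k) * t ^ k := by
  rw [← Finset.sum_range_reflect]
  refine Finset.sum_congr rfl fun k hk => ?_
  have hk' : k ≤ m := Nat.lt_succ_iff.1 (Finset.mem_range.1 hk)
  have : m - (m + 1 - 1 - k) = k := by omega
  rw [this]
  rfl

theorem main (m : ℕ) (hm : 2 ≤ m) (n : ℕ) (hn : n < m) (K : Set (EuclideanSpace ℝ (Fin m)))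
    (hK : IsCompact K) (hK' : Convex ℝ K) (a : ℕ → ℝ) (b : Fin m → ℕ → ℝ) (w : ℕ → ℝ)
    (hw : ∀ k, 0 < w k)
    (ha : ∀ t : ℝ, 0 ≤ t → (volume (Metric.cthickening t K)).toReal =
      ∑ j ∈ Finset.range (m + 1), w (m - j) * a j * t ^ (m - j))
    (hb : ∀ i : Fin m, ∀ t : ℝ, 0 ≤ t → (volume (Metric.cthickening t
      ((fun x : EuclideanSpace ℝ (Fin m) =>
        x - (inner ℝ x (EuclideanSpace.single i (1 : ℝ))) •
          EuclideanSpace.single i (1 : ℝ)) '' K))).toReal =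
      ∑ j ∈ Finset.range (m + 1), w (m - j) * b i j * t ^ (m - j)) :
    ((m : ℝ) - (n : ℝ)) * a n ≤ ∑ i : Fin m, b i n := by
  have : Nonempty (Fin m) := ⟨⟨0, by omega⟩⟩
  have hP : ∀ i : Fin m, (fun x : EuclideanSpace ℝ (Fin m) =>
      x - (inner ℝ x (EuclideanSpace.single i (1 : ℝ))) • EuclideanSpace.single i (1 : ℝ)) =
      proj (EuclideanSpace.basisFun (Fin m) ℝ i) := by
    intro i
    funext x
    rw [proj_apply, EuclideanSpace.basisFun_apply, real_inner_comm]
  have := steiner_coeff_le (EuclideanSpace.basisFun (Fin m) ℝ) (m := m) (by simp) ⟨hK, hK'⟩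
    (fun k => w k * a (m - k)) (fun i k => w k * b i (m - k))
    (fun t ht => by rw [← sum_reflect]; exact ha t ht)
    (fun i t ht => by rw [← sum_reflect, ← hP]; exact hb i t ht) (k := m - n) (by omega)
  have h1 : m - (m - n) = n := by omega
  rw [h1, Nat.cast_sub hn.le, ← Finset.mul_sum, mul_left_comm] at this
  exact le_of_mul_le_mul_left this (hw _)

end Pool.Agent.MP_3a8a48_gt
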