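import Pool.Agent.MP_3a8a48_gt.Fubini

set_option autoImplicit false

open MeasureTheory Set
open scoped Pointwise RealInnerProductSpace ENNReal

namespace Pool.Agent.MP_3a8a48_gt

section basic

variable {E : Type*} [NormedAddCommGroup E] [InnerProductSpace ℝ E]

/-- The symmetric segment from `-v` to `v`. -/
def seg (v : E) : Set E := (fun s : ℝ => s • v) '' Icc (-1) 1

lemma mem_seg {v x : E} : x ∈ seg v ↔ ∃ s : ℝ, -1 ≤ s ∧ s ≤ 1 ∧ s • v = x := by
  simp only [seg, mem_image, mem_Icc, and_assoc]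

lemma cc_seg (v : E) : CC (seg v) := by
  refine ⟨isCompact_Icc.image (by fun_prop), ?_⟩
  exact (convex_Icc (-1 : ℝ) 1).linear_image (LinearMap.toSpanSingleton ℝ E v)

lemma zero_mem_seg (v : E) : (0 : E) ∈ seg v := mem_seg.2 ⟨0, by norm_num, by norm_num, by simp⟩

lemma smul_seg (s : ℝ) (v : E) : s • seg v = seg (s • v) := by
  ext x
  simp only [mem_smul_set, mem_seg]
  constructor
  · rintro ⟨y, ⟨r, h1, h2, rfl⟩, rfl⟩
    exact ⟨r, h1, h2, smul_comm _ _ _⟩
  · rintro ⟨r, h1, h2, rfl⟩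
    exact ⟨r • v, ⟨r, h1, h2, rfl⟩, smul_comm _ _ _⟩

lemma seg_zero : seg (0 : E) = 0 := by
  ext x
  simp only [mem_seg, smul_zero, mem_zero]
  constructor
  · rintro ⟨_, _, _, rfl⟩; rfl
  · rintro rfl
    exact ⟨0, by norm_num, by norm_num, rfl⟩

lemma CC.add {K L : Set E} (hK : CC K) (hL : CC L) : CC (K + L) :=
  ⟨hK.compact.add hL.compact, hK.convex.add hL.convex⟩

lemma CC.smul {K : Set E} (hK : CC K) (s : ℝ) : CC (s • K) :=
  ⟨hK.compact.smul s, hK.convex.smul s⟩

lemma CC.image {K : Set E} (hK : CC K) (T : E →L[ℝ] E) : CC (T '' K) :=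
  ⟨hK.compact.image T.continuous, hK.convex.linear_image (T : E →ₗ[ℝ] E)⟩

lemma cc_zero : CC (0 : Set E) := by
  rw [← seg_zero]; exact cc_seg 0

lemma subset_add_seg (K : Set E) (v : E) : K ⊆ K + seg v := fun x hx =>
  ⟨x, hx, 0, zero_mem_seg v, add_zero x⟩

/-- Every point of `U` is the `θ, 1-θ` average of a point of `X` and a point of `Y`, on a line
in direction `e`. -/
def Shadow (e : E) (θ : ℝ) (U X Y : Set E) : Prop :=
  ∀ u ∈ U, ∃ s r : ℝ, u + s • e ∈ X ∧ u + r • e ∈ Y ∧ θ * s + (1 - θ) * r = 0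

lemma Shadow.add {e : E} {θ : ℝ} {U X Y : Set E} (h : Shadow e θ U X Y) (Z : Set E) :
    Shadow e θ (U + Z) (X + Z) (Y + Z) := by
  rintro _ ⟨u, hu, z, hz, rfl⟩
  obtain ⟨s, r, h1, h2, h3⟩ := h u hu
  refine ⟨s, r, ⟨_, h1, z, hz, ?_⟩, ⟨_, h2, z, hz, ?_⟩, h3⟩
  · simp only; abel
  · simp only; abel

lemma fib_add_seg {v : E} (K : Set E) (y : E) {t : ℝ} (ht : 0 ≤ t) :
    fib v (K + seg (t • v)) y = fib v K y + Icc (-t) t := by
  ext s
  simp only [fib, mem_ofPred_eq, mem_add, mem_seg, mem_Icc]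
  constructor
  · rintro ⟨x, hx, _, ⟨r, h1, h2, rfl⟩, h⟩
    refine ⟨s - r * t, ?_, r * t, ⟨by nlinarith, by nlinarith⟩, by ring⟩
    have : y + (s - r * t) • v = x := by
      rw [sub_smul, ← add_sub_assoc, ← h, mul_smul]; abel
    rwa [this]
  · rintro ⟨a, ha, b, ⟨h1, h2⟩, rfl⟩
    rcases ht.eq_or_lt with rfl | ht'
    · have : b = 0 := by linarith
      subst this
      exact ⟨_, ha, 0, ⟨0, by norm_num, by norm_num, by simp⟩, by simp⟩
    · refine ⟨_, ha, b • v, ⟨b / t, ?_, ?_, ?_⟩, ?_⟩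
      · rw [le_div_iff₀ ht']; linarith
      · rw [div_le_iff₀ ht']; linarith
      · rw [smul_smul, div_mul_cancel₀ _ ht'.ne']
      · rw [add_smul]; abel

lemma volume_fib_add_seg {v : E} (hv : v ≠ 0) {K : Set E} (hK : CC K) (y : E) {t : ℝ}
    (ht : 0 ≤ t) :
    volume (fib v (K + seg (t • v)) y) + ENNReal.ofReal t * volume (fib v K y) =
      volume (fib v K y) + ENNReal.ofReal t * volume (fib v (K + seg v) y) := by
  have h1 := fib_add_seg (v := v) K y zero_le_one
  rw [one_smul] at h1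
  rw [fib_add_seg K y ht, h1]
  rcases (fib v K y).eq_empty_or_nonempty with h | h
  · simp [h]
  · obtain ⟨a, b, hab, h⟩ := fib_eq_Icc hv hK y h
    rw [h, Icc_add_Icc hab (by linarith), Icc_add_Icc hab (by linarith), Real.volume_Icc,
      Real.volume_Icc, Real.volume_Icc, ← ENNReal.ofReal_mul ht, ← ENNReal.ofReal_mul ht,
      ← ENNReal.ofReal_add (by linarith) (by nlinarith),
      ← ENNReal.ofReal_add (by linarith) (by nlinarith)]
    congr 1
    ring

lemma volume_fib_shadow {e : E} (he : e ≠ 0) {θ : ℝ} (h0 : 0 ≤ θ) (h1 : θ ≤ 1) {U X Y : Set E}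
    (hX : CC X) (hY : CC Y) (h : Shadow e θ U X Y) (y : E) :
    volume (fib e U y) ≤ ENNReal.ofReal θ * volume (fib e X y) +
      ENNReal.ofReal (1 - θ) * volume (fib e Y y) := by
  have key : ∀ t ∈ fib e U y, ∃ s ∈ fib e X y, ∃ r ∈ fib e Y y, t = θ * s + (1 - θ) * r := by
    intro t ht
    obtain ⟨s, r, h1, h2, h3⟩ := h _ ht
    refine ⟨t + s, ?_, t + r, ?_, by linear_combination -h3⟩
    · simpa only [fib, mem_ofPred_eq, add_smul, add_assoc] using h1
    · simpa only [fib, mem_ofPred_eq, add_smul, add_assoc] using h2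
  rcases (fib e U y).eq_empty_or_nonempty with hU | ⟨t, ht⟩
  · simp [hU]
  obtain ⟨s, hs, r, hr, -⟩ := key t ht
  obtain ⟨a, b, hab, hXe⟩ := fib_eq_Icc he hX y ⟨s, hs⟩
  obtain ⟨c, d, hcd, hYe⟩ := fib_eq_Icc he hY y ⟨r, hr⟩
  have hsub : fib e U y ⊆ Icc (θ * a + (1 - θ) * c) (θ * b + (1 - θ) * d) := by
    intro t ht
    obtain ⟨s, hs, r, hr, rfl⟩ := key t ht
    rw [hXe] at hs
    rw [hYe] at hr
    have h2 : 0 ≤ 1 - θ := by linarith
    constructor
    · nlinarith [hs.1, hr.1]
    · nlinarith [hs.2, hr.2]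
  refine (measure_mono hsub).trans (le_of_eq ?_)
  have h2 : 0 ≤ 1 - θ := by linarith
  rw [hXe, hYe, Real.volume_Icc, Real.volume_Icc, Real.volume_Icc, ← ENNReal.ofReal_mul h0,
    ← ENNReal.ofReal_mul h2, ← ENNReal.ofReal_add (by nlinarith) (by nlinarith)]
  congr 1
  ring

end basic

variable {E : Type*} [NormedAddCommGroup E] [InnerProductSpace ℝ E] [FiniteDimensional ℝ E]
  [MeasurableSpace E] [BorelSpace E]

/-- Real valued volume. -/
noncomputable def vol (K : Set E) : ℝ := (volume K).toReal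

lemma CC.volume_ne_top {K : Set E} (hK : CC K) : volume K ≠ ⊤ := hK.compact.measure_lt_top.ne

omit [FiniteDimensional ℝ E] in
lemma CC.measurableSet {K : Set E} (hK : CC K) : MeasurableSet K :=
  hK.compact.isClosed.measurableSet

lemma vol_add_seg {K : Set E} (hK : CC K) (v : E) {t : ℝ} (ht : 0 ≤ t) :
    vol (K + seg (t • v)) = vol K + t * (vol (K + seg v) - vol K) := by
  rcases eq_or_ne v 0 with rfl | hv
  · simp [seg_zero]
  have h1 := hK.add (cc_seg (t • v))
  have h2 := hK.add (cc_seg v)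
  have key : volume (K + seg (t • v)) + ENNReal.ofReal t * volume K =
      volume K + ENNReal.ofReal t * volume (K + seg v) := by
    rw [volume_eq_lintegral_fib hv h1.measurableSet, volume_eq_lintegral_fib hv h2.measurableSet,
      volume_eq_lintegral_fib hv hK.measurableSet,
      ← lintegral_const_mul _ (measurable_fib v hK.measurableSet),
      ← lintegral_const_mul _ (measurable_fib v h2.measurableSet),
      ← lintegral_add_left (measurable_fib v h1.measurableSet),
      ← lintegral_add_left (measurable_fib v hK.measurableSet)]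
    simp only [volume_fib_add_seg hv hK _ ht]
  have := congrArg ENNReal.toReal key
  rw [ENNReal.toReal_add h1.volume_ne_top (ENNReal.mul_ne_top ENNReal.ofReal_ne_top
      hK.volume_ne_top), ENNReal.toReal_add hK.volume_ne_top
      (ENNReal.mul_ne_top ENNReal.ofReal_ne_top h2.volume_ne_top), ENNReal.toReal_mul,
      ENNReal.toReal_mul, ENNReal.toReal_ofReal ht] at this
  simp only [vol]
  linarith

lemma vol_shadow (e : E) {θ : ℝ} (h0 : 0 ≤ θ) (h1 : θ ≤ 1) {U X Y : Set E}
    (hU : CC U) (hX : CC X) (hY : CC Y) (h : Shadow e θ U X Y) :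
    vol U ≤ θ * vol X + (1 - θ) * vol Y := by
  have h2 : 0 ≤ 1 - θ := by linarith
  rcases eq_or_ne e 0 with rfl | he
  · have hUX : U ⊆ X := fun u hu => by
      obtain ⟨s, r, h1, -, -⟩ := h u hu
      simpa using h1
    have hUY : U ⊆ Y := fun u hu => by
      obtain ⟨s, r, -, h1, -⟩ := h u hu
      simpa using h1
    have a1 : vol U ≤ vol X := ENNReal.toReal_mono hX.volume_ne_top (measure_mono hUX)
    have a2 : vol U ≤ vol Y := ENNReal.toReal_mono hY.volume_ne_top (measure_mono hUY)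
    nlinarith
  have key : volume U ≤ ENNReal.ofReal θ * volume X + ENNReal.ofReal (1 - θ) * volume Y := by
    rw [volume_eq_lintegral_fib he hU.measurableSet, volume_eq_lintegral_fib he hX.measurableSet,
      volume_eq_lintegral_fib he hY.measurableSet,
      ← lintegral_const_mul _ (measurable_fib e hX.measurableSet),
      ← lintegral_const_mul _ (measurable_fib e hY.measurableSet),
      ← lintegral_add_left ((measurable_fib e hX.measurableSet).const_mul _)]
    exact lintegral_mono fun y => volume_fib_shadow he h0 h1 hX hY h y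
  have a1 := ENNReal.mul_ne_top (ENNReal.ofReal_ne_top (r := θ)) hX.volume_ne_top
  have a2 := ENNReal.mul_ne_top (ENNReal.ofReal_ne_top (r := 1 - θ)) hY.volume_ne_top
  have := ENNReal.toReal_mono (ENNReal.add_ne_top.2 ⟨a1, a2⟩) key
  rwa [ENNReal.toReal_add a1 a2, ENNReal.toReal_mul, ENNReal.toReal_mul,
    ENNReal.toReal_ofReal h0, ENNReal.toReal_ofReal h2] at this

lemma vol_smul (K : Set E) {s : ℝ} (hs : 0 ≤ s) :
    vol (s • K) = s ^ Module.finrank ℝ E * vol K := by
  simp only [vol]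
  rw [Measure.addHaar_smul_of_nonneg _ hs, ENNReal.toReal_mul,
    ENNReal.toReal_ofReal (pow_nonneg hs _)]

end Pool.Agent.MP_3a8a48_gt
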