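import Pool.Agent.MP_3a8a48_gt.Good

set_option autoImplicit false

open MeasureTheory Set Filter Topology
open scoped Pointwise RealInnerProductSpace ENNReal

namespace Pool.Agent.MP_3a8a48_gt

section basic

variable {E : Type*} [NormedAddCommGroup E] [InnerProductSpace ℝ E]

lemma inner_le_of_mem_sum_seg {ι : Type*} (s : Finset ι) (w : ι → E) (u : E) :
    ∀ z ∈ ∑ i ∈ s, seg (w i), ⟪u, z⟫ ≤ ∑ i ∈ s, |⟪u, w i⟫| := by
  classical
  induction s using Finset.induction_on with
  | empty =>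
    intro z hz
    simp only [Finset.sum_empty, Set.mem_zero] at hz
    simp [hz]
  | insert j S hj ih =>
    rw [Finset.sum_insert hj, Finset.sum_insert hj]
    rintro _ ⟨x, hx, z, hz, rfl⟩
    obtain ⟨r, h1, h2, rfl⟩ := mem_seg.1 hx
    have h3 := ih z hz
    simp only [inner_add_right, inner_smul_right]
    have h4 : r * ⟪u, w j⟫ ≤ |⟪u, w j⟫| := by
      refine (le_abs_self _).trans ?_
      rw [abs_mul]
      exact mul_le_of_le_one_left (abs_nonneg _) (abs_le.2 ⟨h1, h2⟩)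
    linarith

lemma exists_inner_eq_sum_seg {ι : Type*} (s : Finset ι) (w : ι → E) (u : E) :
    ∃ z ∈ ∑ i ∈ s, seg (w i), ⟪u, z⟫ = ∑ i ∈ s, |⟪u, w i⟫| := by
  classical
  induction s using Finset.induction_on with
  | empty => exact ⟨0, by simp, by simp⟩
  | insert j S hj ih =>
    obtain ⟨z, hz, h⟩ := ih
    rw [Finset.sum_insert hj, Finset.sum_insert hj]
    rcases le_total 0 ⟪u, w j⟫ with h0 | h0
    · refine ⟨_, ⟨_, mem_seg.2 ⟨1, by norm_num, by norm_num, rfl⟩, z, hz, rfl⟩, ?_⟩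
      simp only [inner_add_right, inner_smul_right]
      rw [h, abs_of_nonneg h0]; ring
    · refine ⟨_, ⟨_, mem_seg.2 ⟨-1, by norm_num, by norm_num, rfl⟩, z, hz, rfl⟩, ?_⟩
      simp only [inner_add_right, inner_smul_right]
      rw [h, abs_of_nonpos h0]; ring

lemma sum_seg_subset_ball {ι : Type*} (s : Finset ι) (w : ι → E) {r : ℝ} (hr : 0 ≤ r)
    (h : ∀ u : E, ∑ i ∈ s, |⟪u, w i⟫| ≤ r * ‖u‖) :
    ∑ i ∈ s, seg (w i) ⊆ Metric.closedBall 0 r := by
  intro z hz
  have h1 := (inner_le_of_mem_sum_seg s w z z hz).trans (h z)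
  rw [real_inner_self_eq_norm_sq] at h1
  rw [mem_closedBall_zero_iff]
  by_contra hlt
  push Not at hlt
  nlinarith

lemma ball_subset_sum_seg [CompleteSpace E] {ι : Type*} (s : Finset ι) (w : ι → E) {r : ℝ}
    (h : ∀ u : E, r * ‖u‖ ≤ ∑ i ∈ s, |⟪u, w i⟫|) :
    Metric.closedBall 0 r ⊆ ∑ i ∈ s, seg (w i) := by
  intro y hy
  rw [mem_closedBall_zero_iff] at hy
  by_contra hn
  have hc := cc_sum_seg s w
  obtain ⟨f, c, h1, h2⟩ := geometric_hahn_banach_closed_point hc.convex hc.compact.isClosed hn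
  set u := (InnerProductSpace.toDual ℝ E).symm f with hu
  have hf : ∀ x, f x = ⟪u, x⟫ := fun x => by
    rw [hu, InnerProductSpace.toDual_symm_apply]
  obtain ⟨z, hz, hz'⟩ := exists_inner_eq_sum_seg s w u
  have h3 := h1 z hz
  rw [hf, hz'] at h3
  rw [hf] at h2
  have h4 := h u
  have h5 := real_inner_le_norm u y
  have h6 := mul_le_mul_of_nonneg_left hy (norm_nonneg u)
  linarith

end basic

variable {E : Type*} [NormedAddCommGroup E] [InnerProductSpace ℝ E] [FiniteDimensional ℝ E]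
  [MeasurableSpace E] [BorelSpace E]

/-- The support function of the zonoid generated by the uniform measure on the unit ball. -/
noncomputable def ballInt (u : E) : ℝ := ∫ x in Metric.closedBall (0 : E) 1, |⟪u, x⟫|

lemma ballInt_eq_of_norm_eq {u v : E} (h : ‖u‖ = ‖v‖) : ballInt u = ballInt v := by
  let R : E ≃ₗᵢ[ℝ] E := Submodule.reflection (ℝ ∙ (u - v))ᗮ
  have hR : R u = v := Submodule.reflection_sub h
  have hmp := R.measurePreserving
  have hemb : MeasurableEmbedding R := R.toHomeomorph.measurableEmbedding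
  have h1 := hmp.setIntegral_preimage_emb hemb (fun x => |⟪v, x⟫|) (Metric.closedBall (0 : E) 1)
  have h2 : R ⁻¹' Metric.closedBall (0 : E) 1 = Metric.closedBall (0 : E) 1 := by
    ext x; simp
  rw [h2] at h1
  simp only [ballInt]
  rw [← h1, ← hR]
  simp only [LinearIsometryEquiv.inner_map_map]

lemma ballInt_smul (u : E) {s : ℝ} (hs : 0 ≤ s) : ballInt (s • u) = s * ballInt u := by
  simp only [ballInt, inner_smul_left, conj_trivial, abs_mul, abs_of_nonneg hs]
  rw [integral_const_mul]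

lemma integrableOn_abs_inner (u : E) :
    IntegrableOn (fun x : E => |⟪u, x⟫|) (Metric.closedBall (0 : E) 1) := by
  have : Continuous fun x : E => |⟪u, x⟫| := by fun_prop
  exact this.continuousOn.integrableOn_compact (isCompact_closedBall 0 1)

lemma ballInt_pos {u : E} (hu : ‖u‖ = 1) : 0 < ballInt u := by
  rw [ballInt, setIntegral_pos_iff_support_of_nonneg_ae
    (Eventually.of_forall fun x => abs_nonneg _) (integrableOn_abs_inner u)]
  have hc : Continuous fun x : E => |⟪u, x⟫| := by fun_prop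
  have ho : IsOpen (Function.support (fun x : E => |⟪u, x⟫|) ∩ Metric.ball 0 1) :=
    hc.isOpen_support.inter Metric.isOpen_ball
  refine lt_of_lt_of_le (ho.measure_pos volume ⟨(1 / 2 : ℝ) • u, ?_, ?_⟩)
    (measure_mono (inter_subset_inter_right _ Metric.ball_subset_closedBall))
  · simp [inner_smul_right, hu]
  · rw [mem_ball_zero_iff, norm_smul, hu]; norm_num

lemma exists_ballInt [Nontrivial E] : ∃ c : ℝ, 0 < c ∧ ∀ u : E, ballInt u = c * ‖u‖ := by
  obtain ⟨e, he⟩ := exists_norm_eq E zero_le_one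
  refine ⟨ballInt e, ballInt_pos he, fun u => ?_⟩
  have : ‖u‖ = ‖‖u‖ • e‖ := by rw [norm_smul, he, norm_norm, mul_one]
  rw [ballInt_eq_of_norm_eq this, ballInt_smul _ (norm_nonneg u), mul_comm]

lemma exists_approx_ballInt {ε : ℝ} (hε : 0 < ε) :
    ∃ (s : Finset E) (w : E → E), ∀ u : E, |∑ i ∈ s, |⟪u, w i⟫| - ballInt u| ≤ ε * ‖u‖ := by
  set μ : Measure E := volume.restrict (Metric.closedBall (0 : E) 1) with hμ
  have hid : Integrable (fun x : E => x) μ :=
    continuous_id.continuousOn.integrableOn_compact (isCompact_closedBall 0 1)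
  obtain ⟨φ, h1, h2⟩ := (memLp_one_iff_integrable.2 hid).exists_simpleFunc_eLpNorm_sub_lt
    ENNReal.one_ne_top (ε := ENNReal.ofReal ε) (by simpa using hε)
  have hφ : Integrable φ μ := memLp_one_iff_integrable.1 h2
  have hsub : Integrable (fun x : E => x - φ x) μ := hid.sub hφ
  have h3 : ∫ x, ‖x - φ x‖ ∂μ ≤ ε := by
    rw [eLpNorm_one_eq_lintegral_enorm] at h1
    rw [integral_norm_eq_lintegral_enorm hsub.aestronglyMeasurable]
    exact ENNReal.toReal_le_of_le_ofReal hε.le h1.le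
  refine ⟨φ.range, fun y => μ.real (φ ⁻¹' {y}) • y, fun u => ?_⟩
  have hg : Integrable (fun x => |⟪u, φ x⟫|) μ := (hφ.const_inner u).abs
  have h4 : ∑ i ∈ φ.range, |⟪u, μ.real (φ ⁻¹' {i}) • i⟫| = ∫ x, |⟪u, φ x⟫| ∂μ := by
    have a1 := φ.map_integral (fun y => |⟪u, y⟫|) hφ (by simp)
    have a2 := (φ.map fun y => |⟪u, y⟫|).integral_eq_integral (μ := μ) hg
    rw [a1] at a2
    refine Eq.trans ?_ a2
    refine Finset.sum_congr rfl fun i _ => ?_
    rw [inner_smul_right, abs_mul, abs_of_nonneg measureReal_nonneg, smul_eq_mul]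
  have hi : Integrable (fun x => |⟪u, x⟫|) μ := integrableOn_abs_inner u
  rw [h4, ballInt, ← hμ, ← integral_sub hg hi]
  calc |∫ x, |⟪u, φ x⟫| - |⟪u, x⟫| ∂μ| ≤ ∫ x, ‖u‖ * ‖x - φ x‖ ∂μ := by
        rw [← Real.norm_eq_abs]
        refine norm_integral_le_of_norm_le (hsub.norm.const_mul _) (Eventually.of_forall fun x => ?_)
        rw [Real.norm_eq_abs, abs_sub_comm]
        refine (abs_abs_sub_abs_le_abs_sub _ _).trans ?_
        rw [← inner_sub_right]
        exact abs_real_inner_le_norm _ _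
    _ = ‖u‖ * ∫ x, ‖x - φ x‖ ∂μ := integral_const_mul _ _
    _ ≤ ε * ‖u‖ := by
        rw [mul_comm]
        exact mul_le_mul_of_nonneg_right h3 (norm_nonneg u)

lemma exists_zonotope_near_ball [Nontrivial E] {ε : ℝ} (hε : 0 < ε) :
    ∃ (s : Finset E) (w : E → E), Metric.closedBall 0 (1 - ε) ⊆ ∑ i ∈ s, seg (w i) ∧
      ∑ i ∈ s, seg (w i) ⊆ Metric.closedBall 0 (1 + ε) := by
  obtain ⟨c, hc, h⟩ := exists_ballInt (E := E)
  obtain ⟨s, w, hw⟩ := exists_approx_ballInt (E := E) (mul_pos hc hε)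
  have key : ∀ u : E, ∑ i ∈ s, |⟪u, c⁻¹ • w i⟫| = c⁻¹ * ∑ i ∈ s, |⟪u, w i⟫| := by
    intro u
    rw [Finset.mul_sum]
    refine Finset.sum_congr rfl fun i _ => ?_
    rw [inner_smul_right, abs_mul, abs_of_pos (inv_pos.2 hc)]
  refine ⟨s, fun i => c⁻¹ • w i, ball_subset_sum_seg _ _ fun u => ?_,
    sum_seg_subset_ball _ _ (by linarith) fun u => ?_⟩
  · have := (abs_le.1 (hw u)).1
    rw [h u] at this
    rw [key, le_inv_mul_iff₀ hc]
    linarith
  · have := (abs_le.1 (hw u)).2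
    rw [h u] at this
    rw [key, inv_mul_le_iff₀ hc]
    linarith

end Pool.Agent.MP_3a8a48_gt
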